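import Pool.Agent.Lib.MP_b573ec_adl.Final

/-!
# One-sided error randomness against NOT gates

Circuits of polynomial size with a limited number `ρ` of NOT gates depending on the input: the
theorem determines exactly how many NOT gates are needed to simulate randomized circuits by
deterministic ones. For one-sided error (`γ = 1/2`) it says that `ρ + 1` NOT gates suffice
(with polynomial size, and `0` if `ρ = 0`), and that `ρ` NOT gates do not suffice if
`1 ≤ ρ` and `2 ^ (ρ + 1) ≤ n + 1`.
-/

set_option autoImplicit false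

namespace Pool.Agent.Results.MP_b573ec_lc.NegationAdleman

open Pool.Agent.CliqueCircuits Pool.Agent.NegCount

/-- Let `0 < γ ≤ 1`. (1) If `2 ^ ρ - 1 < γ 2 ^ σ`, every Boolean function `f` of `n` variables with
a randomized circuit of `s` gates, at most `ρ` NOT gates depending on the input (for each random
string), accepting each `x` with `f x = 1` with a probability exceeding by at least `γ` the
probability of accepting any `y` with `f y = 0`, has a deterministic circuit with at most `σ` NOT
gates and polynomial size. (2) If `2 ^ ρ - 1 ≥ γ 2 ^ σ` and `2 ^ (σ + 1) ≤ n + 1`, there is a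
function with such a randomized circuit of size at most `20 (n + 1) ^ 2`, even with one-sided error,
which no deterministic circuit with at most `σ` NOT gates computes. -/
theorem result (n ρ σ : ℕ) (γ : ℝ) (h0 : 0 < γ) (h1 : γ ≤ 1) :
    ((2 : ℝ) ^ ρ - 1 < γ * 2 ^ σ →
      ∀ (s t : ℕ) (f : (Fin n → Bool) → Bool) (C : Circuit (Fin n ⊕ Fin t) s),
        (∀ r, numNotGiven C r ≤ ρ) →
        (∀ x y, f x = true → f y = false → acceptProb C y + γ ≤ acceptProb C x) →
        ∃ (s' : ℕ) (D : Circuit (Fin n) s'), Computes D f ∧ D.numNot ≤ σ ∧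
          (s' : ℝ) ≤ 40000 * (n + 1) ^ 2 * 4 ^ ρ * (s + ρ) / (γ - (2 ^ ρ - 1) / 2 ^ σ) ^ 4 +
            5 * 2 ^ σ) ∧
    (γ * 2 ^ σ ≤ (2 : ℝ) ^ ρ - 1 → 2 ^ (σ + 1) ≤ n + 1 →
      ∃ (f : (Fin n → Bool) → Bool) (s t : ℕ) (C : Circuit (Fin n ⊕ Fin t) s),
        (s ≤ 20 * (n + 1) ^ 2 ∧ ∀ r, numNotGiven C r ≤ ρ) ∧
        (∀ x, f x = true → γ ≤ acceptProb C x) ∧ (∀ x, f x = false → acceptProb C x = 0) ∧
        ∀ (s' : ℕ) (D : Circuit (Fin n) s'), Computes D f → σ < D.numNot) :=
  ⟨fun h _ _ f C hρ hgap => derand γ h1 f C hρ hgap h, fun h hn => example_exists γ h1 h hn⟩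

end Pool.Agent.Results.MP_b573ec_lc.NegationAdleman
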