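import Pool.Agent.Lib.MP_b573ec_lc_OS.Final

/-!
# One-sided error, few NOT gates: the sharp success probability for the clique problem

An RP machine for an NP problem gives randomized circuits of polynomial size which never accept
graphs without the clique and accept the others with some probability `p`; for RP, any inverse
polynomial `p` is as good as `1/2`. The first part excludes such circuits for the clique problem
with `ρ` NOT gates depending on the input unless `p ≤ 2 ^ ρ (log n) ^ O(1) / n ^ 2` (already a
single NOT gate, `ρ = 1`, is interesting). The second part says that this is sharp: with `ρ ≥ 1`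
such NOT gates and `p = 2 ^ ρ / (8 n ^ 2)` the circuits exist, if the clique problem has
circuits of polynomial size at all.
-/

set_option autoImplicit false

namespace Pool.Agent.Results.MP_b573ec_lc.OneNotGateThreshold

open Pool.Agent.CliqueCircuits Pool.Agent.RandomCircuits

/-- First part: let `C` be a randomized circuit with `s` gates, whose inputs are the edge variables
of an `n`-vertex graph and `t` random bits, which accepts every graph with a clique of more than
`√n` vertices with probability at least `p` and every other graph with probability at most `p / 4`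
(for example never), and let `H` be a set of edges such that, for every random string, at most `ρ`
NOT gates depend on the edges in `H`. Then `2 ^ ((p |H| / 2 ^ ρ) ^ (1/16) / 4) ≤ 8 n s / p`.

Second part: if a circuit `D` with `s` gates decides whether an `n`-vertex graph has a clique of
more than `√n` vertices, and `1 ≤ ρ`, `2 ^ ρ ≤ n ^ 2`, then there is a randomized circuit with at
most `2 s + 40 n ^ 6` gates, at most `ρ` of whose NOT gates depend on the graph for each random
string, which accepts every graph with such a clique with probability at least `2 ^ ρ / (8 n ^ 2)`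
and never accepts any other graph. -/
theorem result :
    (∀ (n t s ρ : ℕ) (p : ℝ), 1 ≤ n → 0 < p → p ≤ 1 →
      ∀ (C : Circuit ({p : Fin n × Fin n // p.1 < p.2} ⊕ Fin t) s)
        (H : Finset {p : Fin n × Fin n // p.1 < p.2}),
      (∀ r : Fin t → Bool, numNotGiven C H r ≤ ρ) →
      (∀ G : SimpleGraph (Fin n), HasBigClique G → p ≤ acceptProb C G) →
      (∀ G : SimpleGraph (Fin n), ¬ HasBigClique G → acceptProb C G ≤ p / 4) →
      (2 : ℝ) ^ ((p * H.card / 2 ^ ρ) ^ (1 / 16 : ℝ) / 4) ≤ 8 * n * s / p) ∧
    (∀ n s ρ : ℕ, 1 ≤ n → 1 ≤ ρ → 2 ^ ρ ≤ n ^ 2 →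
      ∀ D : Circuit {p : Fin n × Fin n // p.1 < p.2} s, D.ComputesClique →
      ∃ (t s' : ℕ) (C : Circuit ({p : Fin n × Fin n // p.1 < p.2} ⊕ Fin t) s'),
        s' ≤ 2 * s + 40 * n ^ 6 ∧
        (∀ r : Fin t → Bool, numNotGiven C Finset.univ r ≤ ρ) ∧
        (∀ G : SimpleGraph (Fin n), HasBigClique G →
          (2 : ℝ) ^ ρ / (8 * (n : ℝ) ^ 2) ≤ acceptProb C G) ∧
        ∀ G : SimpleGraph (Fin n), ¬ HasBigClique G → acceptProb C G = 0) :=
  ⟨fun _ _ _ _ _ hn hp hp1 C H hρ hyes hno =>
      Pool.Agent.OneSided.rand_real_os hn hp hp1 C H hρ hyes hno,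
    fun _ _ _ hn hρ hρn D hD => Pool.Agent.OneSided.upper_clique hn hρ hρn D hD⟩

end Pool.Agent.Results.MP_b573ec_lc.OneNotGateThreshold
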