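import Pool.Agent.Lib.MP_b573ec_lc.OracleFinal

/-!
# Randomized monotone circuits for the clique problem with antitone oracles

The algorithm tosses coins, giving a random string `r`, and then uses a monotone circuit `C r` with
`s` gates, whose inputs are the edge variables of the graph, the values of `t` arbitrary functions
`φ r i` (of any complexity) which are antitone in the edges in `H`, and the values of arbitrary
functions `ψ r i` which do not depend on the edges in `H` (for instance the random bits and their
negations). If `t` is the number `N` of all edge variables, this model contains all randomized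
circuits. The theorem says that the clique problem is not solved in this model with one-sided or
bounded two-sided error and polynomial size, unless `t ≥ |H| / (log n) ^ O(1)`.
-/

set_option autoImplicit false

namespace Pool.Agent.Results.MP_b573ec_lc.RandomizedAntitoneOracles

open Pool.Agent.CliqueCircuits Pool.Agent.RandomCircuits

/-- If every graph with a clique of more than `√n` vertices is accepted with a probability which
exceeds by at least `γ` the probability of accepting any graph without such a clique (`γ = 1/2` for
the class RP), then `2 ^ ((γ³ |H| / (t + 1)) ^ (1/16) / 4) ≤ 8 n s / γ`. -/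
theorem result (n b s t u : ℕ) (γ : ℝ) (hn : 1 ≤ n) (hγ : 0 < γ) (hγ1 : γ ≤ 1)
    (C : (Fin b → Bool) → Circuit ({p : Fin n × Fin n // p.1 < p.2} ⊕ (Fin t ⊕ Fin u)) s)
    (hnot : ∀ r i, (C r).kind i ≠ GateKind.not)
    (φ : (Fin b → Bool) → Fin t → ({p : Fin n × Fin n // p.1 < p.2} → Prop) → Prop)
    (ψ : (Fin b → Bool) → Fin u → ({p : Fin n × Fin n // p.1 < p.2} → Prop) → Prop)
    (H : Finset {p : Fin n × Fin n // p.1 < p.2})
    (hφ : ∀ r i, AntitoneIn H (φ r i)) (hψ : ∀ r i, IndependentOf H (ψ r i))
    (hgap : ∀ G G' : SimpleGraph (Fin n), HasBigClique G → ¬ HasBigClique G' →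
      acceptProbO C φ ψ G' + γ ≤ acceptProbO C φ ψ G) :
    (2 : ℝ) ^ ((γ ^ 3 * H.card / (t + 1)) ^ (1 / 16 : ℝ) / 4) ≤ 8 * n * s / γ :=
  oracle_rand_real hn hγ hγ1 C hnot φ ψ H hφ hψ hgap

end Pool.Agent.Results.MP_b573ec_lc.RandomizedAntitoneOracles
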