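import Mathlib
import Pool.Agent.Lib.MP_0a1b52_lc_GAP.MainG

/-!
# Randomized circuits which approximate the clique number

An RP machine for an NP problem gives randomized circuits of polynomial size with one-sided error.
Here a randomized circuit is a circuit `D r` depending on a uniformly distributed string `r` of `b`
random bits. It has `s` gates, each of which is an AND gate, an OR gate (both of unbounded fan-in),
or a special gate, which computes an arbitrary Boolean function of its wires (so a NOT gate is a
special gate with one wire). A module is the set `J` of the wires feeding some special gate; the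
weight of a circuit is the sum, over all chains of modules (sets of modules any two of which are
joined by a path in the circuit), of the products of the numbers of non-constant wires of these
modules. For a circuit all of whose special gates are NOT gates, it is at most the number of sets
of negated wires which lie on one path, hence at most `2 ^ h` if there are `h` NOT gates.

The theorem bounds the gap between the acceptance probabilities of the graphs with a clique of more
than `√n` vertices and the graphs all of whose cliques have at most `√n - d` vertices by the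
expected weight times `(d + 1) ^ 2 / n ^ 2`, up to a polylogarithmic factor.
-/

set_option autoImplicit false

namespace Pool.Agent.Results.MP_b573ec_lc.RandomizedApproximateClique

open Pool.Agent.CliqueModules

/-- The probability that the randomized circuit `D` accepts the graph `G`. -/
noncomputable def randAcceptProb {n s b : ℕ} (D : (Fin b → Bool) → Circuit (EdgeVar n) s)
    (G : SimpleGraph (Fin n)) : ℝ :=
  (Nat.card {r : Fin b → Bool // (D r).Accepts G} : ℝ) / 2 ^ b

/-- The expected weight of the randomized circuit `D`. -/
noncomputable def expectedWeight {n s b : ℕ} (D : (Fin b → Bool) → Circuit (EdgeVar n) s) : ℝ :=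
  (∑ r : Fin b → Bool, ((D r).weight Finset.univ : ℝ)) / 2 ^ b

open Classical in
/-- Averaging the acceptance probabilities over a family of graphs and over the random bits. -/
theorem sum_acceptProb {n s b N : ℕ} (D : (Fin b → Bool) → Circuit (EdgeVar n) s)
    (P : Fin N → SimpleGraph (Fin n)) :
    ∑ r : Fin b → Bool, (D r).acceptProb P = 2 ^ b * (∑ i, randAcceptProb D (P i)) / N := by
  have h2 : (2 : ℝ) ^ b ≠ 0 := by positivity
  have e1 : ∀ i, randAcceptProb D (P i) =
      (∑ r : Fin b → Bool, if (D r).Accepts (P i) then (1 : ℝ) else 0) / 2 ^ b := by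
    intro i
    unfold randAcceptProb
    rw [Nat.card_eq_fintype_card, Fintype.card_subtype, Finset.card_filter]
    push_cast
    rfl
  have e2 : ∀ r : Fin b → Bool, (D r).acceptProb P =
      (∑ i, if (D r).Accepts (P i) then (1 : ℝ) else 0) / N := by
    intro r
    unfold Circuit.acceptProb
    rw [Finset.card_filter]
    push_cast
    rfl
  simp only [e1, e2]
  rw [← Finset.sum_div, ← Finset.sum_div, Finset.sum_comm, mul_div_cancel₀ _ h2]

/-- The average of a function on a nonempty finite family is at least a lower bound. -/
theorem le_average {N : ℕ} (hN : 0 < N) (f : Fin N → ℝ) (x : ℝ) (h : ∀ i, x ≤ f i) :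
    x ≤ (∑ i, f i) / N := by
  have hNR : (0 : ℝ) < N := by exact_mod_cast hN
  rw [le_div_iff₀ hNR]
  calc x * N = ∑ _i : Fin N, x := by
        rw [Finset.sum_const, Finset.card_univ, Fintype.card_fin, nsmul_eq_mul, mul_comm]
    _ ≤ ∑ i, f i := Finset.sum_le_sum fun i _ => h i

/-- There is a constant `C` such that the following holds for every randomized circuit `D` with `s`
gates on `n`-vertex graphs and every `d` with `d + C (log₂ (n s) + 1) ^ 9 ≤ √n`. If `D` accepts
every graph with a clique of more than `√n` vertices with probability at least `γ` larger than any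
graph all of whose cliques have at most `√n - d` vertices (`γ = 1/2` for the class RP), then
`γ n² ≤ C (d + 1)² · E_r [weight of D r] · (log₂ (n s) + 1) ^ 20`. -/
theorem result : ∃ C : ℕ, ∀ (n s b d : ℕ) (γ : ℝ) (D : (Fin b → Bool) → Circuit (EdgeVar n) s),
    (∀ G G' : SimpleGraph (Fin n), HasClique G → CliquesAtMost G' d →
      randAcceptProb D G' + γ ≤ randAcceptProb D G) →
    d + C * (Nat.log 2 (n * s) + 1) ^ 9 ≤ Nat.sqrt n →
    γ * n ^ 2 ≤ C * (d + 1) ^ 2 * expectedWeight D * (Nat.log 2 (n * s) + 1) ^ 20 := by
  classical
  obtain ⟨C, hC⟩ := gap_main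
  refine ⟨C, ?_⟩
  intro n s b d γ D hgap hn
  obtain ⟨N, N', P, Q, hN, hN', hP, hQ, h⟩ := hC n s d hn
  have h2 : (0 : ℝ) < 2 ^ b := by positivity
  have hNR : (0 : ℝ) < N := by exact_mod_cast hN
  -- the gap on the families
  have h1 : γ ≤ (∑ i, randAcceptProb D (P i)) / N - (∑ i, randAcceptProb D (Q i)) / N' := by
    have h6 : ∀ j, randAcceptProb D (Q j) + γ ≤ (∑ i, randAcceptProb D (P i)) / N := fun j =>
      le_average hN _ _ fun i => hgap (P i) (Q j) (hP i) (hQ j)
    have h7 := le_average hN' (fun j => - randAcceptProb D (Q j))
      (γ - (∑ i, randAcceptProb D (P i)) / N) fun j => by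
        have := h6 j
        linarith
    rw [Finset.sum_neg_distrib, neg_div] at h7
    linarith
  -- averaging over the random bits
  have h3 : ∑ r : Fin b → Bool, ((D r).acceptProb P - (D r).acceptProb Q) * (n : ℝ) ^ 2 ≤
      ∑ r : Fin b → Bool, C * ((d : ℝ) + 1) ^ 2 * ((D r).weight Finset.univ : ℝ) *
        (Nat.log 2 (n * s) + 1) ^ 20 :=
    Finset.sum_le_sum fun r _ => h s le_rfl (D r)
  rw [← Finset.sum_mul, Finset.sum_sub_distrib, sum_acceptProb, sum_acceptProb,
    ← Finset.sum_mul, ← Finset.mul_sum] at h3
  have h4 : C * ((d : ℝ) + 1) ^ 2 * expectedWeight D * (Nat.log 2 (n * s) + 1) ^ 20 =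
      (C * ((d : ℝ) + 1) ^ 2 * (∑ r : Fin b → Bool, ((D r).weight Finset.univ : ℝ)) *
        (Nat.log 2 (n * s) + 1) ^ 20) / 2 ^ b := by
    unfold expectedWeight
    ring
  rw [h4, le_div_iff₀ h2]
  refine le_trans ?_ h3
  have h5 : (2 ^ b * (∑ i, randAcceptProb D (P i)) / N -
      2 ^ b * (∑ i, randAcceptProb D (Q i)) / N') * (n : ℝ) ^ 2 =
      ((∑ i, randAcceptProb D (P i)) / N - (∑ i, randAcceptProb D (Q i)) / N') * (n : ℝ) ^ 2 *
        2 ^ b := by
    ring
  rw [h5]
  exact mul_le_mul_of_nonneg_right (mul_le_mul_of_nonneg_right h1 (by positivity)) h2.le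

end Pool.Agent.Results.MP_b573ec_lc.RandomizedApproximateClique
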