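import Pool.Agent.Lib.MP_0a1b52_lc_RND.Main

/-!
# Randomized circuits for the clique problem in which the non-monotone part is limited

An RP machine for an NP problem gives randomized circuits of polynomial size with one-sided error.
Here a randomized circuit is a circuit `D r` depending on a uniformly distributed string `r` of `b`
random bits. It has `s` gates, each of which is an AND gate, an OR gate (both of unbounded fan-in),
or a special gate, which computes an arbitrary Boolean function of its wires (so a NOT gate is a
special gate with one wire). A module is the set `J` of the wires feeding some special gate;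
`numDep T J` is the number of wires in `J` whose value depends on the edge variables in `T`, and
`weight T` is the sum over all chains of modules (sets of modules any two of which are joined by a
path in the circuit) of the product of the numbers `numDep T J`. It is at most the product of
`1 + numDep T J` over all modules `J`.

The theorem bounds `|T|`, for every set `T` of edge variables, by the expected weight, up to a
polylogarithmic factor and the inverse of the gap between the acceptance probabilities of yes and no
instances.
-/

set_option autoImplicit false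

namespace Pool.Agent.Results.MP_b573ec_lc.RandomizedArbitraryGates

open Pool.Agent.CliqueModules

/-- The probability that the randomized circuit `D` accepts the graph `G`. -/
noncomputable def randAcceptProb {n s b : ℕ} (D : (Fin b → Bool) → Circuit (EdgeVar n) s)
    (G : SimpleGraph (Fin n)) : ℝ :=
  (Nat.card {r : Fin b → Bool // (D r).Accepts G} : ℝ) / 2 ^ b

/-- The expected weight of the randomized circuit `D`. -/
noncomputable def expectedWeight {n s b : ℕ} (D : (Fin b → Bool) → Circuit (EdgeVar n) s)
    (T : Finset (EdgeVar n)) : ℝ :=
  (∑ r : Fin b → Bool, ((D r).weight T : ℝ)) / 2 ^ b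

/-- The weight is at most the product of `1 + numDep T J` over all modules `J`. -/
theorem weight_le_prod {V : Type} [Fintype V] {s : ℕ} (D : Circuit V s) (T : Finset V) :
    D.weight T ≤ ∏ J ∈ D.modules, (1 + D.numDep T J) := by
  classical
  rw [Finset.prod_one_add]
  unfold Circuit.weight Circuit.chains
  exact Finset.sum_le_sum_of_subset (Finset.filter_subset _ _)

open Classical in
/-- Averaging the acceptance probabilities over a family of graphs and over the random bits. -/
theorem sum_acceptProb {n s b N : ℕ} (D : (Fin b → Bool) → Circuit (EdgeVar n) s)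
    (P : Fin N → SimpleGraph (Fin n)) :
    ∑ r : Fin b → Bool, (D r).acceptProb P = 2 ^ b * (∑ i, randAcceptProb D (P i)) / N := by
  have h2 : (2 : ℝ) ^ b ≠ 0 := by positivity
  have e1 : ∀ i, randAcceptProb D (P i) =
      (∑ r : Fin b → Bool, if (D r).Accepts (P i) then (1 : ℝ) else 0) / 2 ^ b := by
    intro i
    unfold randAcceptProb
    rw [Nat.card_eq_fintype_card, Fintype.card_subtype, Finset.card_filter]
    push_cast
    rfl
  have e2 : ∀ r : Fin b → Bool, (D r).acceptProb P =
      (∑ i, if (D r).Accepts (P i) then (1 : ℝ) else 0) / N := by
    intro r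
    unfold Circuit.acceptProb
    rw [Finset.card_filter]
    push_cast
    rfl
  simp only [e1, e2]
  rw [← Finset.sum_div, ← Finset.sum_div, Finset.sum_comm, mul_div_cancel₀ _ h2]

/-- There is a constant `C` such that the following holds for every randomized circuit `D` with `s`
gates on `n`-vertex graphs, with `C (log₂ (n s) + 1) ^ 8 ≤ n`. If `D` accepts every graph with a
clique of more than `√n` vertices with probability at least `γ` larger than any graph without such
a clique (`γ = 1/2` for the class RP), then for every set `T` of edge variables
`γ |T| ≤ C · E_r [weight of D r for T] · (log₂ (n s) + 1) ^ 8`. -/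
theorem result : ∃ C : ℕ, ∀ (n s b : ℕ) (γ : ℝ) (D : (Fin b → Bool) → Circuit (EdgeVar n) s)
    (T : Finset (EdgeVar n)),
    (∀ G G' : SimpleGraph (Fin n), HasClique G → ¬ HasClique G' →
      randAcceptProb D G' + γ ≤ randAcceptProb D G) →
    C * (Nat.log 2 (n * s) + 1) ^ 8 ≤ n →
    γ * T.card ≤ C * expectedWeight D T * (Nat.log 2 (n * s) + 1) ^ 8 := by
  classical
  obtain ⟨C, hC⟩ := main2
  refine ⟨C, ?_⟩
  intro n s b γ D T hgap hn
  obtain ⟨N, P, Q, hN, hP, hQ, h⟩ := hC n s hn T
  have h2 : (0 : ℝ) < 2 ^ b := by positivity
  have hNR : (0 : ℝ) < N := by exact_mod_cast hN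
  have hT : (0 : ℝ) ≤ T.card := Nat.cast_nonneg _
  -- the gap on the families
  have h1 : γ ≤ (∑ i, randAcceptProb D (P i)) / N - (∑ i, randAcceptProb D (Q i)) / N := by
    rw [← sub_div, le_div_iff₀ hNR, ← Finset.sum_sub_distrib]
    calc γ * N = ∑ _i : Fin N, γ := by
          rw [Finset.sum_const, Finset.card_univ, Fintype.card_fin, nsmul_eq_mul, mul_comm]
      _ ≤ ∑ i, (randAcceptProb D (P i) - randAcceptProb D (Q i)) := by
          refine Finset.sum_le_sum fun i _ => ?_
          have := hgap (P i) (Q i) (hP i) (hQ i)
          linarith
  -- averaging over the random bits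
  have h3 : ∑ r : Fin b → Bool, ((D r).acceptProb P - (D r).acceptProb Q) * T.card ≤
      ∑ r : Fin b → Bool, C * ((D r).weight T : ℝ) * (Nat.log 2 (n * s) + 1) ^ 8 :=
    Finset.sum_le_sum fun r _ => h s le_rfl (D r)
  rw [← Finset.sum_mul, Finset.sum_sub_distrib, sum_acceptProb, sum_acceptProb,
    ← Finset.sum_mul, ← Finset.mul_sum] at h3
  have h4 : C * expectedWeight D T * (Nat.log 2 (n * s) + 1) ^ 8 =
      (C * (∑ r : Fin b → Bool, ((D r).weight T : ℝ)) * (Nat.log 2 (n * s) + 1) ^ 8) / 2 ^ b := by
    unfold expectedWeight
    ring
  rw [h4, le_div_iff₀ h2]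
  refine le_trans ?_ h3
  have h5 : (2 ^ b * (∑ i, randAcceptProb D (P i)) / N -
      2 ^ b * (∑ i, randAcceptProb D (Q i)) / N) * (T.card : ℝ) =
      ((∑ i, randAcceptProb D (P i)) / N - (∑ i, randAcceptProb D (Q i)) / N) * T.card * 2 ^ b := by
    ring
  rw [h5]
  exact mul_le_mul_of_nonneg_right (mul_le_mul_of_nonneg_right h1 hT) h2.le

end Pool.Agent.Results.MP_b573ec_lc.RandomizedArbitraryGates
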