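import Pool.Agent.Lib.MP_b573ec_lc_ST.Final

/-!
# RP, BPP, NP and coNP for stack machines with few passes over the input

Stack programs are nonuniform machines with `w` states and a stack; the height of the stack and the
number of moves are not bounded, but the input head makes only `p` passes over the input, from one
end to the other.  There is a constant `C` such that the explicit language `langB` is accepted, for
every input length `n`, by a nondeterministic program which has no stack, reads every variable once,
in the fixed order `x_1, ..., x_n`, and has width at most `C * n ^ 2`; but for all `n, p, S` with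
`n ≤ 2 ^ S` and `C * p ^ 2 * S ≤ n` and all widths `w ≤ 2 ^ S` it has no randomized stack programs
with `p` passes and width `w`, neither with two-sided error `1/3` nor with one-sided error `1/2`,
and its complement has no nondeterministic one.
-/

namespace Pool.Agent.Results.MP_b573ec_lc.StackPassesNP

open Pool.Agent.LT Pool.Agent.ST

theorem result : ∃ C : ℕ, (∀ n ≥ 1, ∃ w ≤ C * n ^ 2, NondetOnePass (langB n) w) ∧
    ∀ n p S w : ℕ, 1 ≤ p → 1 ≤ S → n ≤ 2 ^ S → w ≤ 2 ^ S → C * p ^ 2 * S ≤ n →
      ¬ StackTwoSided (langB n) p w ∧ ¬ StackOneSided (langB n) p w ∧
        ¬ StackNondet (fun x => !langB n x) p w :=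
  resultNP

end Pool.Agent.Results.MP_b573ec_lc.StackPassesNP
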