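import Pool.Agent.Lib.MP_b573ec_lc_ST.Final

/-!
# P, RP, coRP and coNP for stack machines with few passes over the input

Stack programs are nonuniform machines with `w` states and a stack; the height of the stack and the
number of moves are not bounded, but the input head makes only `p` passes over the input, from one
end to the other.  There is a constant `C` such that the explicit language `langA` is accepted, for
every input length `n`, by randomized programs with one-sided error which have no stack, read every
variable once, in the fixed order `x_1, ..., x_n`, and have width at most `C * n`; but for all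
`n, p, S` with `n ≤ 2 ^ S` and `C * p ^ 2 * S ≤ n` and all widths `w ≤ 2 ^ S` the complement of
`langA` has no nondeterministic stack program with `p` passes and width `w`, and no randomized ones
with one-sided error, and `langA` has no deterministic one.
-/

namespace Pool.Agent.Results.MP_b573ec_lc.StackPassesRP

open Pool.Agent.LT Pool.Agent.ST

theorem result : ∃ C : ℕ, (∀ n ≥ 1, ∃ w ≤ C * n, OneSidedOnePass (langA n) w) ∧
    ∀ n p S w : ℕ, 1 ≤ p → 1 ≤ S → n ≤ 2 ^ S → w ≤ 2 ^ S → C * p ^ 2 * S ≤ n →
      ¬ StackNondet (fun x => !langA n x) p w ∧ ¬ StackOneSided (fun x => !langA n x) p w ∧
        ¬ StackDet (langA n) p w :=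
  resultRP

end Pool.Agent.Results.MP_b573ec_lc.StackPassesRP
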