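import Pool.Agent.Lib.MP_b573ec_lc_SR.Compare
import Pool.Agent.Lib.MP_b573ec_lc_SR.Final

/-!
# RP, BPP and NP for stack machines with few readings of the input

Read programs are nonuniform auxiliary pushdown machines: `w` states (space `log2 w`), random access
to the `n` bits of the input and a stack; the height of the stack and the number of moves are not
bounded, only the number `T` of readings of bits of the input.  (Without stack these are the
branching programs of length `T` and width `w`, see `Compare.lean`; with polynomial width and no bound for the number
of readings they are at least as strong as polynomial time machines, Cook 1971.)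

There is a constant `C` such that the explicit language `langNP` is accepted, for every input length
`n`, by a nondeterministic program which has no stack, reads every variable once, in the fixed order
`x_1, ..., x_n`, and has width at most `C * n ^ 10`; but for all `n, S, h, T` with
`S * 4 ^ h ≤ n`, `C ≤ h` and `C * T ^ 2 * (log2 h) ^ 3 ≤ n ^ 2 * h` it has no randomized read
programs with `T` readings and width at most `2 ^ S`, neither with two-sided error `1/3` nor with
one-sided error `1/2`.
-/

namespace Pool.Agent.Results.MP_b573ec_lc.StackReadsNP

open Pool.Agent.LT Pool.Agent.SR

theorem result : ∃ C : ℕ, (∀ n ≥ 1, ∃ w ≤ C * n ^ 10, NondetOnePass (langNP n) w) ∧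
    ∀ n S h T w : ℕ, 1 ≤ S → C ≤ h → S * 4 ^ h ≤ n → C * T ^ 2 * Nat.log 2 h ^ 3 ≤ n ^ 2 * h →
      w ≤ 2 ^ S → ¬ ReadsTwoSided (langNP n) T w ∧ ¬ ReadsOneSided (langNP n) T w :=
  Pool.Agent.SR.resultNP

end Pool.Agent.Results.MP_b573ec_lc.StackReadsNP
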