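import Mathlib
import Pool.Agent.Lib.MP_b573ec_lc_SYR.Main

/-!
# Random bits in symmetric circuits

`Γ = Alt(p)^n` acts on the `n` input positions by `ρ`.  `OneSided ρ f s w K`: `f` is computed with
one-sided error by a randomized Boolean circuit with at most `s` gates of fan-in `w`, all of whose
gates compute functions with at most `K` images under `Γ`.  `RCircuit I s t ℓ`: circuits with `s`
gates (sums, thresholds of sums, sums modulo `ℓ`, all terms being arbitrary real functions of `t`
gates).  For every prime `p ≥ 5` there are a `Γ`-invariant property `f`, a yes-instance `x₁` and a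
no-instance `x₀` such that `f` has one-sided-error randomized circuits of size `O(n log n)` with
`O(1)` images, and no deterministic circuit of any size with less than `p^(n / (C t))` images
computes `f`, not even on the orbits of `x₁` and `x₀`, not even with a small advantage.
-/

namespace Pool.Agent.Results.MP_b573ec_lc.SymmetricRandomness

open Pool.Agent.SymRand

theorem result (p : ℕ) [Fact p.Prime] (hp : 5 ≤ p) : ∃ C : ℕ, ∀ n : ℕ, C ≤ n →
    ∃ (ρ : (Fin n → alternatingGroup (Fin p)) →* Equiv.Perm (Fin n))
      (f : (Fin n → Bool) → Bool) (x₁ x₀ : Fin n → Bool),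
      OneSided ρ f (C * (n * (Nat.log 2 n + 1))) C C ∧
      (∀ σ x, f (act ρ σ x) = f x) ∧ f x₁ = true ∧ f x₀ = false ∧
      ∀ t r ℓ s : ℕ, 1 ≤ t → p.Coprime ℓ → C * t * r ≤ n → ∀ D : RCircuit (Fin n) s t ℓ,
        (∀ i, (images ρ (D.gateFun i)).ncard < p ^ r) → ∀ y : ℝ,
          {σ | D.gateFun D.out (act ρ σ x₁) = y}.ncard =
            {σ | D.gateFun D.out (act ρ σ x₀) = y}.ncard :=
  main p hp

end Pool.Agent.Results.MP_b573ec_lc.SymmetricRandomness
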