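import Pool.Agent.Lib.MP_b573ec_lc_LT.V2.LangFinal

/-!
# RP, BPP and NP in nonuniform superlinear time and sublinear space

Branching programs (no restriction on the order or number of readings of the variables) of length
`T` and width `w`: nonuniform time `T` and space `log2 w`.  There is a constant `C` such that the
explicit language `langNP` is accepted, for every input length `n`, by a nondeterministic program
which reads every variable once, in the fixed order `x_1, ..., x_n`, and has width at most
`C * n ^ 10`; but for all `n, S, h, T` with `S * 4 ^ h ≤ n`, `C ≤ h` and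
`C * T ^ 2 * (log2 h) ^ 3 ≤ n ^ 2 * h` it has no randomized programs, neither with two-sided error
`1/3` nor with one-sided error `1/2`, of length `T` and width at most `2 ^ S`.
-/

namespace Pool.Agent.Results.MP_b573ec_lc.TimeSpaceNP

open Pool.Agent.LT

theorem result : ∃ C : ℕ, (∀ n ≥ 1, ∃ w ≤ C * n ^ 10, NondetOnePass (langNP n) w) ∧
    ∀ n S h T w : ℕ, 1 ≤ S → C ≤ h → S * 4 ^ h ≤ n → C * T ^ 2 * Nat.log 2 h ^ 3 ≤ n ^ 2 * h →
      w ≤ 2 ^ S → ¬ TwoSided (langNP n) T w ∧ ¬ OneSided (langNP n) T w :=
  resultNP

end Pool.Agent.Results.MP_b573ec_lc.TimeSpaceNP
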