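import Pool.Agent.Lib.MP_b573ec_lc_LT.V2.LangFinal

/-!
# P, RP and coRP in nonuniform superlinear time and sublinear space

Branching programs (no restriction on the order or number of readings of the variables) of length
`T` and width `w`: nonuniform time `T` and space `log2 w`.  There is a constant `C` such that the
explicit language `langRP` is accepted, for every input length `n`, by randomized programs with
one-sided error which read every variable once, in the fixed order `x_1, ..., x_n`, and have width
at most `C * n ^ 5`; but for all `n, S, h, T` with `S * 4 ^ h ≤ n`, `C ≤ h` and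
`C * T ^ 2 * log2 h ≤ n ^ 2 * h` the complement of `langRP` has no randomized programs with
one-sided error, and `langRP` no deterministic program, of length `T` and width at most `2 ^ S`.
In other words, these programs need time `c n sqrt (log (n/S) / log log (n/S))`.
-/

namespace Pool.Agent.Results.MP_b573ec_lc.TimeSpaceRP

open Pool.Agent.LT

theorem result : ∃ C : ℕ, (∀ n ≥ 1, ∃ w ≤ C * n ^ 5, OneSidedOnePass (langRP n) w) ∧
    ∀ n S h T w : ℕ, 1 ≤ S → C ≤ h → S * 4 ^ h ≤ n → C * T ^ 2 * Nat.log 2 h ≤ n ^ 2 * h →
      w ≤ 2 ^ S → ¬ OneSided (fun x => !langRP n x) T w ∧ ¬ Det (langRP n) T w :=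
  resultRP

end Pool.Agent.Results.MP_b573ec_lc.TimeSpaceRP
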